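import Mathlib
import Pool.Agent.Results.MP_4fd693_gt.ThreeParts

/-! MP_4fd693_gt, Q1: every weakly first countable compact space is a clopen subspace of a weakly
first countable compact space with the bad properties. -/

set_option autoImplicit false

namespace Pool.Agent.Results.MP_4fd693_gt.ClopenSummands

open Set Topology ThreeParts
open Pool.Agent.Helper391.ForceCH (Om OmegaOnePreserved DiamondHolds)

section
variable {X Y : Type} [TopologicalSpace X] [TopologicalSpace Y]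

lemma wfc_sum (hX : WeaklyFirstCountable X) (hY : WeaklyFirstCountable Y) :
    WeaklyFirstCountable (X ⊕ Y) := by
  obtain ⟨V, hV1, hV2⟩ := hX
  obtain ⟨W, hW1, hW2⟩ := hY
  refine ⟨fun z n => Sum.elim (fun x => Sum.inl '' V x n) (fun y => Sum.inr '' W y n) z, ?_, ?_⟩
  · rintro (x | y) n
    · exact ⟨⟨x, (hV1 x n).1, rfl⟩, image_mono (hV1 x n).2⟩
    · exact ⟨⟨y, (hW1 y n).1, rfl⟩, image_mono (hW1 y n).2⟩
  · intro U
    rw [isOpen_sum_iff, hV2, hW2]
    constructor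
    · rintro ⟨h1, h2⟩ (x | y) hx
      · obtain ⟨n, hn⟩ := h1 x hx
        exact ⟨n, image_subset_iff.2 hn⟩
      · obtain ⟨n, hn⟩ := h2 y hx
        exact ⟨n, image_subset_iff.2 hn⟩
    · intro h
      refine ⟨fun x hx => ?_, fun y hy => ?_⟩
      · obtain ⟨n, hn⟩ := h (Sum.inl x) hx
        exact ⟨n, image_subset_iff.1 hn⟩
      · obtain ⟨n, hn⟩ := h (Sum.inr y) hy
        exact ⟨n, image_subset_iff.1 hn⟩

lemma fc_sum [FirstCountableTopology X] [FirstCountableTopology Y] :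
    FirstCountableTopology (X ⊕ Y) := by
  refine ⟨fun z => ?_⟩
  rcases z with x | y
  · rw [_root_.nhds_inl]
    infer_instance
  · rw [_root_.nhds_inr]
    infer_instance

lemma wtr_homeo {A B : Type} [TopologicalSpace A] [TopologicalSpace B] (e : A ≃ₜ B)
    (h : WeaklyThetaRefinable B) : WeaklyThetaRefinable A := by
  intro U hU hc
  obtain ⟨V, hV1, hV2⟩ := h ((fun T => e.symm ⁻¹' T) '' U)
    (by
      rintro _ ⟨T, hT, rfl⟩
      exact (hU T hT).preimage e.symm.continuous)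
    (by
      rw [eq_univ_iff_forall]
      intro b
      obtain ⟨T, hT, hb⟩ : e.symm b ∈ ⋃₀ U := hc ▸ mem_univ _
      exact ⟨_, ⟨T, hT, rfl⟩, hb⟩)
  refine ⟨fun n => (fun T => e ⁻¹' T) '' V n, ?_, ?_⟩
  · rintro n _ ⟨T, hT, rfl⟩
    obtain ⟨h1, _, ⟨S, hS, rfl⟩, h2⟩ := hV1 n T hT
    refine ⟨h1.preimage e.continuous, S, hS, fun x hx => ?_⟩
    have h3 : e.symm (e x) ∈ S := h2 hx
    rwa [e.symm_apply_apply] at h3
  · intro x
    obtain ⟨n, ⟨T, hT, hx⟩, hf⟩ := hV2 (e x)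
    refine ⟨n, ⟨_, ⟨T, hT, rfl⟩, hx⟩, (hf.image fun T => e ⁻¹' T).subset ?_⟩
    rintro _ ⟨⟨S, hS, rfl⟩, hx'⟩
    exact ⟨S, ⟨hS, hx'⟩, rfl⟩

lemma ar_homeo {A B : Type} [TopologicalSpace A] [TopologicalSpace B] (e : A ≃ₜ B)
    (h : AlphaRealcompact B) : AlphaRealcompact A := by
  intro F hF hc
  have hpp : ∀ C : Set A, e ⁻¹' (e.symm ⁻¹' C) = C := fun C => by
    ext x
    change e.symm (e x) ∈ C ↔ x ∈ C
    rw [e.symm_apply_apply]
  have hu : IsClosedUltrafilter {T : Set B | e ⁻¹' T ∈ F} := by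
    refine ⟨fun T hT => e.isClosed_preimage.1 (hF.closed _ hT), ?_, ?_,
      fun T hT T' hT' => hF.inter _ hT _ hT',
      fun T hT T' hc hs => hF.mono _ hT _ (e.isClosed_preimage.2 hc) (preimage_mono hs),
      fun T hT hn => ?_⟩
    · change e ⁻¹' univ ∈ F
      rw [preimage_univ]
      exact hF.univ_mem
    · change e ⁻¹' ∅ ∉ F
      rw [preimage_empty]
      exact hF.empty_notMem
    · obtain ⟨C, hC, hCT⟩ := hF.maximal _ (e.isClosed_preimage.2 hT) hn
      refine ⟨e.symm ⁻¹' C, ?_, ?_⟩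
      · change e ⁻¹' (e.symm ⁻¹' C) ∈ F
        rw [hpp]
        exact hC
      · rw [eq_empty_iff_forall_notMem] at hCT ⊢
        rintro y ⟨h1, h2⟩
        refine hCT (e.symm y) ⟨?_, h2⟩
        change e (e.symm y) ∈ T
        rw [e.apply_symm_apply]
        exact h1
  obtain ⟨b, hb⟩ := h _ hu (by
    intro G hG hGc
    obtain ⟨a, ha⟩ := hc ((fun T => e ⁻¹' T) '' G)
      (by rintro _ ⟨T, hT, rfl⟩; exact hG hT) (hGc.image _)
    exact ⟨e a, fun T hT => ha _ ⟨T, hT, rfl⟩⟩)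
  refine ⟨e.symm b, fun C hC => ?_⟩
  have h1 : e.symm ⁻¹' C ∈ {T : Set B | e ⁻¹' T ∈ F} := by
    change e ⁻¹' (e.symm ⁻¹' C) ∈ F
    rw [hpp]
    exact hC
  exact hb _ h1

lemma radon_sum (h : RadonSpace (X ⊕ Y)) : RadonSpace X := by
  intro μ hμ A hA c hc
  letI mX : MeasurableSpace X := borel X
  haveI bX : BorelSpace X := ⟨rfl⟩
  letI mS : MeasurableSpace (X ⊕ Y) := borel (X ⊕ Y)
  haveI bS : BorelSpace (X ⊕ Y) := ⟨rfl⟩
  have hm : MeasurableEmbedding (Sum.inl : X → X ⊕ Y) :=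
    IsClosedEmbedding.inl.measurableEmbedding
  haveI : MeasureTheory.IsFiniteMeasure μ := hμ
  have hf : MeasureTheory.IsFiniteMeasure (μ.map (Sum.inl : X → X ⊕ Y)) := inferInstance
  obtain ⟨C, hC, hCc, hCμ⟩ := h (μ.map (Sum.inl : X → X ⊕ Y)) hf (Sum.inl '' A)
    (hm.measurableSet_image.2 hA) c (by
      rw [hm.map_apply, preimage_image_eq _ Sum.inl_injective]
      exact hc)
  refine ⟨Sum.inl ⁻¹' C, fun x hx => ?_, IsClosedEmbedding.inl.isCompact_preimage hCc, ?_⟩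
  · obtain ⟨y, hy, hxy⟩ := hC hx
    cases hxy
    exact hy
  · rw [hm.map_apply] at hCμ
    exact hCμ

lemma not_wtr (h : ∃ S : Set X, ¬ WeaklyThetaRefinable S) :
    ∃ S : Set (X ⊕ Y), ¬ WeaklyThetaRefinable S := by
  obtain ⟨S, hS⟩ := h
  exact ⟨Sum.inl '' S, fun h => hS (wtr_homeo (IsEmbedding.inl.homeomorphImage S) h)⟩

lemma not_ar (h : ∃ S : Set X, ¬ AlphaRealcompact S) :
    ∃ S : Set (X ⊕ Y), ¬ AlphaRealcompact S := by
  obtain ⟨S, hS⟩ := h
  exact ⟨Sum.inl '' S, fun h => hS (ar_homeo (IsEmbedding.inl.homeomorphImage S) h)⟩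

end

/-- (1) Some forcing notion preserves `ω₁` and forces diamond. (2) Diamond implies that there is a
space `X` such that for every weakly first countable compact Hausdorff space `Y` the sum `X ⊕ Y` is
again weakly first countable compact Hausdorff, it has a subspace that is not `α`-realcompact, it
is not Radon, and it has a subspace that is not weakly `θ`-refinable. (3) In ZFC there is a space
`X` such that for every weakly first countable compact Hausdorff space `Y` the sum `X ⊕ Y` is again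
weakly first countable compact Hausdorff and has a subspace that is not weakly `θ`-refinable, and
`X ⊕ Y` is first countable if `Y` is. -/
theorem result :
    (∃ (P : Type) (_ : Preorder P), Nonempty P ∧ ∀ p : P,
      p ∈ OmegaOnePreserved P ∧ p ∈ DiamondHolds P) ∧
    (Diamond → ∃ (X : Type) (_ : TopologicalSpace X),
      ∀ (Y : Type) [TopologicalSpace Y], CompactSpace Y → T2Space Y → WeaklyFirstCountable Y →
        CompactSpace (X ⊕ Y) ∧ T2Space (X ⊕ Y) ∧ WeaklyFirstCountable (X ⊕ Y) ∧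
        (∃ S : Set (X ⊕ Y), ¬ AlphaRealcompact S) ∧ ¬ RadonSpace (X ⊕ Y) ∧
        ∃ S : Set (X ⊕ Y), ¬ WeaklyThetaRefinable S) ∧
    (∃ (X : Type) (_ : TopologicalSpace X),
      ∀ (Y : Type) [TopologicalSpace Y], CompactSpace Y → T2Space Y → WeaklyFirstCountable Y →
        CompactSpace (X ⊕ Y) ∧ T2Space (X ⊕ Y) ∧ WeaklyFirstCountable (X ⊕ Y) ∧
        (FirstCountableTopology Y → FirstCountableTopology (X ⊕ Y)) ∧
        ∃ S : Set (X ⊕ Y), ¬ WeaklyThetaRefinable S) := by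
  refine ⟨ThreeParts.result.1, fun h => ?_, ?_⟩
  · obtain ⟨X, _, h1, h2, h3, h4, h5, h6⟩ := ThreeParts.result.2.1 h
    exact ⟨X, inferInstance, fun Y _ _ _ hY => ⟨inferInstance, inferInstance, wfc_sum h3 hY,
      not_ar h4, fun h => h5 (radon_sum h), not_wtr h6⟩⟩
  · obtain ⟨X, tX, h1, h2, h4, ⟨V, h3, h3', h3''⟩, S, hS⟩ :=
      Pool.Agent.Helper391.TreeCompactum.tree_result
    have hX : WeaklyFirstCountable X := ⟨V, fun x n => ⟨h3' x n, h3 x n⟩, h3''⟩
    exact ⟨X, inferInstance, fun Y _ _ _ hY => ⟨inferInstance, inferInstance, wfc_sum hX hY,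
      fun _ => fc_sum, not_wtr ⟨S, hS⟩⟩⟩

end Pool.Agent.Results.MP_4fd693_gt.ClopenSummands
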